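import Pool.Agent.helper48.TH.Spec

/-!
Row `tha:CXE` (MP_f42afa_pr): averages over the coordinates outside a set.
-/

set_option autoImplicit false

namespace TP.TW

open DP MeasureTheory Finset

theorem CXE_card (n : ℕ) (A : Finset (Fin n)) (x : Fin n → Bool) :
    #{y : Fin n → Bool | ∀ i ∈ A, y i = x i} = 2 ^ (n - #A) := by
  have e : ({y : Fin n → Bool | ∀ i ∈ A, y i = x i} : Finset (Fin n → Bool)) =
      Fintype.piFinset (fun i => if i ∈ A then ({x i} : Finset Bool) else univ) := by
    ext y
    simp only [mem_filter, mem_univ, true_and, Fintype.mem_piFinset]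
    constructor
    · intro h i
      by_cases hi : i ∈ A
      · rw [if_pos hi, mem_singleton]
        exact h i hi
      · rw [if_neg hi]
        exact mem_univ _
    · intro h i hi
      have h1 := h i
      rw [if_pos hi, mem_singleton] at h1
      exact h1
  rw [e, Fintype.card_piFinset]
  have h1 : ∀ i, #(if i ∈ A then ({x i} : Finset Bool) else univ) = if i ∈ A then 1 else 2 := by
    intro i
    split_ifs <;> simp
  simp only [h1]
  rw [Finset.prod_ite, Finset.prod_const_one, one_mul, Finset.prod_const]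
  congr 1
  have h2 : (univ.filter (fun i => i ∉ A) : Finset (Fin n)) = Aᶜ := by
    ext i
    simp
  rw [h2, Finset.card_compl, Fintype.card_fin]

theorem CXE_three (n : ℕ) (A : Finset (Fin n)) (f : (Fin n → Bool) → ℝ)
    (F : (Fin n → Bool) → Prop) [DecidablePred F]
    (hF : ∀ x y, (∀ i ∈ A, x i = y i) → (F x ↔ F y)) :
    av (fun x => if F x then f x else 0) = av (fun x => if F x then cex A f x else 0) := by
  unfold av
  congr 1
  have hc : (2 : ℝ) ^ (n - #A) ≠ 0 := by positivity
  have h1 : ∀ x : Fin n → Bool, (if F x then cex A f x else 0) =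
      ∑ y, (if ∀ i ∈ A, y i = x i then (if F y then f y / 2 ^ (n - #A) else 0) else 0) := by
    intro x
    by_cases hx : F x
    · rw [if_pos hx]
      unfold cex
      rw [Finset.sum_div, Finset.sum_filter]
      refine Finset.sum_congr rfl (fun y _ => ?_)
      by_cases hy : ∀ i ∈ A, y i = x i
      · rw [if_pos hy, if_pos hy, if_pos ((hF y x hy).mpr hx)]
      · rw [if_neg hy, if_neg hy]
    · rw [if_neg hx]
      symm
      refine Finset.sum_eq_zero (fun y _ => ?_)
      by_cases hy : ∀ i ∈ A, y i = x i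
      · rw [if_pos hy, if_neg (fun h => hx ((hF y x hy).mp h))]
      · rw [if_neg hy]
  simp only [h1]
  rw [Finset.sum_comm]
  refine Finset.sum_congr rfl (fun y _ => ?_)
  have h2 : ∑ x : Fin n → Bool,
      (if ∀ i ∈ A, y i = x i then (if F y then f y / 2 ^ (n - #A) else 0) else 0) =
      (#{x : Fin n → Bool | ∀ i ∈ A, x i = y i} : ℝ) * (if F y then f y / 2 ^ (n - #A) else 0) := by
    rw [← nsmul_eq_mul, ← Finset.sum_const, Finset.sum_filter]
    refine Finset.sum_congr rfl (fun x _ => ?_)
    by_cases hx : ∀ i ∈ A, x i = y i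
    · rw [if_pos hx, if_pos (fun i hi => (hx i hi).symm)]
    · rw [if_neg hx, if_neg (fun h => hx (fun i hi => (h i hi).symm))]
  rw [h2, CXE_card]
  push_cast
  by_cases hy : F y
  · rw [if_pos hy, if_pos hy]
    field_simp
  · rw [if_neg hy, if_neg hy, mul_zero]

theorem CXE_four (n : ℕ) (A : Finset (Fin n)) (f : (Fin n → Bool) → ℝ) (Λ : Finset (Fin n))
    (hf : ∀ x y, (∀ i ∈ Λ, x i = y i) → f x = f y) : cex A f = cex (A ∩ Λ) f := by
  funext x
  unfold cex
  have hAn : #A ≤ n := by
    have := Finset.card_le_univ A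
    rwa [Fintype.card_fin] at this
  have hBA : #(A ∩ Λ) ≤ #A := Finset.card_le_card Finset.inter_subset_left
  let φ : (Fin n → Bool) → (Fin n → Bool) := fun y i => if i ∈ A then x i else y i
  have hφ : ∀ y, (∀ i ∈ A ∩ Λ, y i = x i) → f (φ y) = f y := by
    intro y hy
    apply hf
    intro i hi
    by_cases hA : i ∈ A
    · have h1 : φ y i = x i := if_pos hA
      rw [h1, hy i (Finset.mem_inter.mpr ⟨hA, hi⟩)]
    · exact if_neg hA
  have hmap : ∀ y ∈ ({y : Fin n → Bool | ∀ i ∈ A ∩ Λ, y i = x i} : Finset (Fin n → Bool)),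
      φ y ∈ ({y : Fin n → Bool | ∀ i ∈ A, y i = x i} : Finset (Fin n → Bool)) := by
    intro y _
    simp only [mem_filter, mem_univ, true_and]
    intro i hi
    exact if_pos hi
  have hsum : (∑ y with ∀ i ∈ A ∩ Λ, y i = x i, f y) =
      2 ^ (#A - #(A ∩ Λ)) * ∑ y with ∀ i ∈ A, y i = x i, f y := by
    rw [← Finset.sum_fiberwise_of_maps_to hmap, Finset.mul_sum]
    refine Finset.sum_congr rfl (fun z hz => ?_)
    simp only [mem_filter, mem_univ, true_and] at hz
    have e : (({y : Fin n → Bool | ∀ i ∈ A ∩ Λ, y i = x i} : Finset (Fin n → Bool)).filter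
        (fun y => φ y = z)) =
        ({y : Fin n → Bool | ∀ i ∈ (A ∩ Λ) ∪ Aᶜ, y i = z i} : Finset (Fin n → Bool)) := by
      ext y
      simp only [mem_filter, mem_univ, true_and]
      constructor
      · rintro ⟨h1, h2⟩ i hi
        rcases Finset.mem_union.mp hi with h | h
        · rw [h1 i h, hz i (Finset.mem_inter.mp h).1]
        · have h3 : φ y i = y i := if_neg (Finset.mem_compl.mp h)
          rw [← h2, h3]
      · intro h
        refine ⟨fun i hi => ?_, ?_⟩
        · rw [h i (Finset.mem_union_left _ hi), hz i (Finset.mem_inter.mp hi).1]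
        · funext i
          by_cases hA : i ∈ A
          · have h3 : φ y i = x i := if_pos hA
            rw [h3, hz i hA]
          · have h3 : φ y i = y i := if_neg hA
            rw [h3, h i (Finset.mem_union_right _ (Finset.mem_compl.mpr hA))]
    have hval : ∀ y ∈ (({y : Fin n → Bool | ∀ i ∈ A ∩ Λ, y i = x i} :
        Finset (Fin n → Bool)).filter (fun y => φ y = z)), f y = f z := by
      intro y hy
      simp only [mem_filter, mem_univ, true_and] at hy
      rw [← hy.2, hφ y hy.1]
    rw [Finset.sum_congr rfl hval, Finset.sum_const, nsmul_eq_mul, e, CXE_card]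
    have hd : Disjoint (A ∩ Λ) Aᶜ :=
      Finset.disjoint_left.mpr (fun i h1 h2 =>
        (Finset.mem_compl.mp h2) (Finset.mem_inter.mp h1).1)
    rw [Finset.card_union_of_disjoint hd, Finset.card_compl, Fintype.card_fin]
    have h4 : n - (#(A ∩ Λ) + (n - #A)) = #A - #(A ∩ Λ) := by omega
    rw [h4]
    push_cast
    ring
  rw [hsum]
  have h5 : n - #(A ∩ Λ) = (#A - #(A ∩ Λ)) + (n - #A) := by omega
  rw [h5, pow_add]
  have p1 : (2 : ℝ) ^ (#A - #(A ∩ Λ)) ≠ 0 := by positivity
  have p2 : (2 : ℝ) ^ (n - #A) ≠ 0 := by positivity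
  field_simp

theorem CXE : CXE_stmt := by
  intro n A f
  refine ⟨fun h x => ?_, ?_, fun F _ hF => CXE_three n A f F hF, fun Λ hf => CXE_four n A f Λ hf⟩
  · unfold cex
    exact div_nonneg (Finset.sum_nonneg (fun y _ => h y)) (by positivity)
  · have h := CXE_three n A f (fun _ => True) (fun _ _ _ => Iff.rfl)
    simp only [if_true] at h
    exact h.symm

end TP.TW
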