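import Pool.Agent.helper48.TH.Spec

/-!
Row `tha:INF` (MP_f42afa_pr): entropy decoupling.
-/

set_option autoImplicit false

namespace TP.TW

open DP MeasureTheory Finset

theorem INF (hSHE : SHE_stmt) (hYNG : YNG_stmt) (hCXE : CXE_stmt) : INF_stmt := by
  classical
  intro n κ T E F Λ A M p hp hE hF hM
  have h2n : (0 : ℝ) < 2 ^ n := by positivity
  rcases Nat.eq_zero_or_pos (#{x : Fin n → Bool | E x}) with h0 | h0
  · have hp0 : p = 0 := by rw [hp, h0]; simp
    have hemp : ∀ x, ¬ E x := by
      intro x hx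
      have h1 : x ∈ ({x : Fin n → Bool | E x} : Finset (Fin n → Bool)) := by
        simp only [mem_filter, mem_univ, true_and]
        exact hx
      rw [Finset.card_eq_zero] at h0
      rw [h0] at h1
      exact absurd h1 (Finset.notMem_empty x)
    have hz : ∑ τ ∈ T, (#{x | E x ∧ F τ x} : ℝ) / 2 ^ n = 0 := by
      refine Finset.sum_eq_zero (fun τ _ => ?_)
      have h2 : ({x : Fin n → Bool | E x ∧ F τ x} : Finset (Fin n → Bool)) = ∅ := by
        rw [Finset.filter_eq_empty_iff]
        intro x _ hx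
        exact hemp x hx.1
      rw [h2]
      simp
    rw [hz, hp0]
    simp
  · have hE0 : (0 : ℝ) < (#{x : Fin n → Bool | E x} : ℝ) := by exact_mod_cast h0
    have hp0 : 0 < p := by rw [hp]; positivity
    set f : (Fin n → Bool) → ℝ := fun x => if E x then 1 / p else 0 with hf
    have hf0 : ∀ x, 0 ≤ f x := by
      intro x
      simp only [hf]
      split_ifs
      · positivity
      · exact le_refl 0
    have hpe : (#{x : Fin n → Bool | E x} : ℝ) = p * 2 ^ n := by
      rw [hp]
      field_simp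
    have hav : av f = 1 := by
      unfold av
      simp only [hf]
      rw [← Finset.sum_filter, Finset.sum_const, nsmul_eq_mul, hpe]
      field_simp
    have hEt : Et f = Real.log (1 / p) := by
      unfold Et
      rw [hav]
      have h1 : ph (1 : ℝ) = 0 := by simp [ph]
      rw [h1, sub_zero]
      unfold av
      have h2 : ∀ x, ph (f x) = if E x then 1 / p * Real.log (1 / p) else 0 := by
        intro x
        simp only [hf]
        split_ifs
        · rfl
        · simp [ph]
      simp only [h2]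
      rw [← Finset.sum_filter, Finset.sum_const, nsmul_eq_mul, hpe]
      field_simp
    obtain ⟨d, hd0, hds, hdA⟩ := hSHE n f hf0
    have hfΛ : ∀ x y, (∀ i ∈ Λ, x i = y i) → f x = f y := by
      intro x y hxy
      simp only [hf]
      by_cases hx : E x
      · rw [if_pos hx, if_pos ((hE x y hxy).mp hx)]
      · rw [if_neg hx, if_neg (fun h => hx ((hE x y hxy).mpr h))]
    have key : ∀ τ ∈ T, (#{x | E x ∧ F τ x} : ℝ) / 2 ^ n ≤
        p * ∑ i ∈ A τ ∩ Λ, d i + 2 * p * ((#{x | F τ x} : ℝ) / 2 ^ n) := by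
      intro τ hτ
      obtain ⟨c1, c2, c3, c4⟩ := hCXE n (A τ) f
      have e1 : (#{x | E x ∧ F τ x} : ℝ) / 2 ^ n = p * av (fun x => if F τ x then f x else 0) := by
        unfold av
        have h3 : ∀ x, (if F τ x then f x else 0) = if E x ∧ F τ x then 1 / p else 0 := by
          intro x
          simp only [hf]
          by_cases h1 : F τ x
          · by_cases h2 : E x
            · rw [if_pos h1, if_pos h2, if_pos ⟨h2, h1⟩]
            · rw [if_pos h1, if_neg h2, if_neg (fun h => h2 h.1)]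
          · rw [if_neg h1, if_neg (fun h => h1 h.2)]
        simp only [h3]
        rw [← Finset.sum_filter, Finset.sum_const, nsmul_eq_mul]
        have h7 : ∀ c : ℝ, c / 2 ^ n = p * (c * (1 / p) / 2 ^ n) := by
          intro c
          field_simp
        exact h7 _
      have e2' := c3 (F τ) (hF τ hτ)
      have hg1 : av (cex (A τ) f) = 1 := by rw [c2, hav]
      have e3 := hYNG n (cex (A τ) f) (F τ) (c1 hf0) hg1
      have e4 : Et (cex (A τ) f) ≤ ∑ i ∈ A τ ∩ Λ, d i := by
        rw [c4 Λ hfΛ]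
        exact hdA (A τ ∩ Λ)
      rw [e1, e2']
      calc p * av (fun x => if F τ x then cex (A τ) f x else 0)
          ≤ p * (∑ i ∈ A τ ∩ Λ, d i + 2 * ((#{x | F τ x} : ℝ) / 2 ^ n)) := by
            apply mul_le_mul_of_nonneg_left _ hp0.le
            linarith
        _ = p * ∑ i ∈ A τ ∩ Λ, d i + 2 * p * ((#{x | F τ x} : ℝ) / 2 ^ n) := by ring
    have hswap : ∑ τ ∈ T, ∑ i ∈ A τ ∩ Λ, d i ≤ M * Real.log (1 / p) := by
      have h5 : ∀ τ ∈ T, ∑ i ∈ A τ ∩ Λ, d i = ∑ i ∈ Λ, (if i ∈ A τ then d i else 0) := by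
        intro τ _
        rw [← Finset.sum_filter]
        refine Finset.sum_congr ?_ (fun _ _ => rfl)
        ext i
        simp only [mem_inter, mem_filter]
        exact and_comm
      rw [Finset.sum_congr rfl h5, Finset.sum_comm]
      have h6 : ∀ i ∈ Λ, ∑ τ ∈ T, (if i ∈ A τ then d i else 0) ≤ (M : ℝ) * d i := by
        intro i hi
        rw [← Finset.sum_filter, Finset.sum_const, nsmul_eq_mul]
        apply mul_le_mul_of_nonneg_right _ (hd0 i)
        exact_mod_cast hM i hi
      calc ∑ i ∈ Λ, ∑ τ ∈ T, (if i ∈ A τ then d i else 0)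
          ≤ ∑ i ∈ Λ, (M : ℝ) * d i := Finset.sum_le_sum h6
        _ = M * ∑ i ∈ Λ, d i := by rw [Finset.mul_sum]
        _ ≤ M * ∑ i, d i := by
            apply mul_le_mul_of_nonneg_left _ (Nat.cast_nonneg M)
            exact Finset.sum_le_sum_of_subset_of_nonneg (Finset.subset_univ _)
              (fun i _ _ => hd0 i)
        _ = M * Real.log (1 / p) := by rw [hds, hEt]
    calc ∑ τ ∈ T, (#{x | E x ∧ F τ x} : ℝ) / 2 ^ n
        ≤ ∑ τ ∈ T, (p * ∑ i ∈ A τ ∩ Λ, d i + 2 * p * ((#{x | F τ x} : ℝ) / 2 ^ n)) :=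
          Finset.sum_le_sum key
      _ = p * ∑ τ ∈ T, ∑ i ∈ A τ ∩ Λ, d i + 2 * p * ∑ τ ∈ T, (#{x | F τ x} : ℝ) / 2 ^ n := by
          rw [Finset.sum_add_distrib, ← Finset.mul_sum, ← Finset.mul_sum]
      _ ≤ p * (M * Real.log (1 / p)) + 2 * p * ∑ τ ∈ T, (#{x | F τ x} : ℝ) / 2 ^ n := by
          have := mul_le_mul_of_nonneg_left hswap hp0.le
          linarith

end TP.TW
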